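import Mathlib

set_option autoImplicit false
open Filter Topology Metric Set MeasureTheory
open scoped ENNReal

namespace Pool.Agent.H.MP_5c297c_an

variable {n : ℕ}

noncomputable def W (n : ℕ) (t : ℝ) : ℝ≥0∞ := ENNReal.ofReal (((2 * t) ^ n)⁻¹)

lemma vb {t : ℝ} (ht : 0 < t) (a : Fin n → ℝ) :
    volume (ball a t) = ENNReal.ofReal ((2 * t) ^ n) := by
  simpa using Real.volume_pi_ball a ht

lemma integ {v : (Fin n → ℝ) → ℝ} {c : ℝ} (hc : c ≠ 0)
    (h : Tendsto (fun t : ℝ => ((2 * t) ^ n)⁻¹ * ∫ x in ball 0 t, v x) atTop (𝓝 c)) (t : ℝ) :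
    IntegrableOn v (ball 0 t) := by
  by_contra hn
  refine hc (tendsto_nhds_unique h (tendsto_const_nhds.congr' ?_))
  filter_upwards [eventually_ge_atTop t] with s hs
  rw [integral_undef (fun h' => hn (IntegrableOn.mono_set h' (ball_subset_ball hs))), mul_zero]

lemma ratio (s : ℝ) :
    Tendsto (fun t : ℝ => ((2 * t) ^ n)⁻¹ * (2 * (t + s)) ^ n) atTop (𝓝 1) := by
  have h1 : Tendsto (fun t : ℝ => (1 + s * t⁻¹) ^ n) atTop (𝓝 ((1 + s * 0) ^ n)) :=
    ((tendsto_inv_atTop_zero.const_mul s).const_add 1).pow n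
  simp only [mul_zero, add_zero, one_pow] at h1
  refine h1.congr' ?_
  filter_upwards [eventually_gt_atTop 0] with t ht
  rw [← inv_pow, ← mul_pow]
  congr 1
  field_simp

lemma limr {v : (Fin n → ℝ) → ℝ} {c M : ℝ} (hc : c ≠ 0)
    (h : Tendsto (fun t : ℝ => ((2 * t) ^ n)⁻¹ * ∫ x in ball 0 t, v x) atTop (𝓝 c)) (s : ℝ) :
    Tendsto (fun t : ℝ => ((2 * t) ^ n)⁻¹ * ∫ x in ball 0 (t + s), (M - v x)) atTop
      (𝓝 (M - c)) := by
  have h1 := (ratio (n := n) s).mul
    ((h.comp (tendsto_atTop_add_const_right _ s tendsto_id)).const_sub M)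
  rw [one_mul] at h1
  refine h1.congr' ?_
  filter_upwards [eventually_gt_atTop (-s)] with t ht
  have h2 : 0 < t + s := by linarith
  have i1 : IntegrableOn (fun _ => M) (ball (0 : Fin n → ℝ) (t + s)) :=
    integrableOn_const measure_ball_lt_top.ne
  rw [integral_sub i1 (integ hc h _), setIntegral_const,
    measureReal_def, vb h2, ENNReal.toReal_ofReal (by positivity)]
  simp only [Function.comp, id, smul_eq_mul]
  field_simp

lemma le_M {v : (Fin n → ℝ) → ℝ} {c M : ℝ} (hc : c ≠ 0)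
    (h : Tendsto (fun t : ℝ => ((2 * t) ^ n)⁻¹ * ∫ x in ball 0 t, v x) atTop (𝓝 c))
    (hM : ∀ x, v x ≤ M) : 0 ≤ M - c := by
  refine ge_of_tendsto (limr hc h 0) ?_
  filter_upwards [eventually_gt_atTop 0] with t ht
  exact mul_nonneg (by positivity) (integral_nonneg fun x => sub_nonneg.2 (hM x))

lemma lim {v : (Fin n → ℝ) → ℝ} {c M : ℝ} (hc : c ≠ 0)
    (h : Tendsto (fun t : ℝ => ((2 * t) ^ n)⁻¹ * ∫ x in ball 0 t, v x) atTop (𝓝 c))
    (hM : ∀ x, v x ≤ M) (s : ℝ) :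
    Tendsto (fun t : ℝ => W n t * ∫⁻ x in ball 0 (t + s), ENNReal.ofReal (M - v x)) atTop
      (𝓝 (ENNReal.ofReal (M - c))) := by
  refine (ENNReal.tendsto_ofReal (limr hc h s)).congr' ?_
  filter_upwards [eventually_gt_atTop 0] with t ht
  have i1 : IntegrableOn (fun _ => M) (ball (0 : Fin n → ℝ) (t + s)) :=
    integrableOn_const measure_ball_lt_top.ne
  rw [ENNReal.ofReal_mul (by positivity), ofReal_integral_eq_lintegral_ofReal
    (f := fun x => M - v x) (i1.sub (integ hc h _))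
    (Eventually.of_forall fun x => sub_nonneg.2 (hM x)), W]

lemma shift (g : (Fin n → ℝ) → ℝ≥0∞) (a : Fin n → ℝ) {t t' : ℝ} (h : t + ‖a‖ ≤ t') :
    ∫⁻ x in ball 0 t, g (x + a) ≤ ∫⁻ x in ball 0 t', g x := by
  rw [← lintegral_indicator measurableSet_ball, ← lintegral_indicator measurableSet_ball,
    ← lintegral_add_right_eq_self ((ball 0 t').indicator g) a]
  refine lintegral_mono fun x => ?_
  by_cases hx : x ∈ ball (0 : Fin n → ℝ) t
  · rw [indicator_of_mem hx, indicator_of_mem]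
    rw [mem_ball_zero_iff] at hx ⊢
    linarith [norm_add_le x a]
  · rw [indicator_of_notMem hx]; exact zero_le

lemma shift' (g : (Fin n → ℝ) → ℝ≥0∞) (a : Fin n → ℝ) {t t' : ℝ} (h : t + ‖a‖ ≤ t') :
    ∫⁻ x in ball 0 t, g x ≤ ∫⁻ x in ball 0 t', g (x + a) := by
  simpa using shift (fun x => g (x + a)) (-a) (t := t) (t' := t') (by rwa [norm_neg])

lemma dens {S : Set (Fin n → ℝ)} (hS : MeasurableSet S) {v : ℝ≥0∞} {L : ℝ}
    (h : ∀ a, v ≤ volume (S ∩ ball a L)) (t : ℝ) :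
    v * volume (ball (0 : Fin n → ℝ) (t + -L)) ≤
      volume (ball (0 : Fin n → ℝ) L) * volume (S ∩ ball 0 t) := by
  have hm : Measurable (S.indicator (1 : (Fin n → ℝ) → ℝ≥0∞)) := measurable_one.indicator hS
  have e : ∀ a : Fin n → ℝ, volume (S ∩ ball a L) = ∫⁻ b in ball 0 L, S.indicator 1 (a + b) := by
    intro a
    rw [← lintegral_indicator measurableSet_ball, ← lintegral_indicator_one
      (hS.inter measurableSet_ball), ← lintegral_add_left_eq_self _ a]
    refine lintegral_congr fun b => ?_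
    by_cases h1 : b ∈ ball (0 : Fin n → ℝ) L
    · have h2 : a + b ∈ ball a L := by simpa using h1
      by_cases h3 : a + b ∈ S <;> simp [indicator, h1, h2, h3]
    · have h2 : a + b ∉ ball a L := by simpa using h1
      simp [indicator, h1, h2]
  calc v * volume (ball (0 : Fin n → ℝ) (t + -L)) = ∫⁻ _ in ball (0 : Fin n → ℝ) (t + -L), v := by
        rw [setLIntegral_const]
    _ ≤ ∫⁻ a in ball (0 : Fin n → ℝ) (t + -L), ∫⁻ b in ball 0 L, S.indicator 1 (a + b) :=
        lintegral_mono fun a => (h a).trans (e a).le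
    _ = ∫⁻ b in ball (0 : Fin n → ℝ) L, ∫⁻ a in ball 0 (t + -L), S.indicator 1 (a + b) :=
        lintegral_lintegral_swap (hm.comp (measurable_fst.add measurable_snd)).aemeasurable
    _ ≤ ∫⁻ _ in ball (0 : Fin n → ℝ) L, volume (S ∩ ball 0 t) := by
        refine setLIntegral_mono' measurableSet_ball fun b hb => ?_
        refine (shift (S.indicator 1) b (t' := t) (by linarith [mem_ball_zero_iff.1 hb])).trans ?_
        rw [lintegral_indicator_one hS, Measure.restrict_apply hS]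
    _ = _ := by rw [setLIntegral_const, mul_comm]

lemma dens' {S : Set (Fin n → ℝ)} (hS : MeasurableSet S) {v : ℝ≥0∞} {L : ℝ} (hL : 0 < L)
    (hv : v ≠ 0) (h : ∀ a, v ≤ volume (S ∩ ball a L)) :
    ∃ d : ℝ≥0∞, d ≠ 0 ∧ ∀ᶠ t in atTop, d ≤ W n t * volume (S ∩ ball 0 t) := by
  have b0 : volume (ball (0 : Fin n → ℝ) L) ≠ 0 := (measure_ball_pos _ _ hL).ne'
  have b1 : volume (ball (0 : Fin n → ℝ) L) ≠ ⊤ := measure_ball_lt_top.ne
  refine ⟨v * ENNReal.ofReal (1 / 2) / volume (ball (0 : Fin n → ℝ) L), ?_, ?_⟩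
  · exact (ENNReal.div_pos (mul_ne_zero hv (by simp)) b1).ne'
  filter_upwards [eventually_gt_atTop L, (ratio (n := n) (-L)).eventually
    (le_mem_nhds (a := 1 / 2) (by norm_num))] with t h1 h2
  rw [ENNReal.div_le_iff b0 b1]
  have h3 : ENNReal.ofReal (1 / 2) ≤ W n t * volume (ball (0 : Fin n → ℝ) (t + -L)) := by
    have : 0 < t := by linarith
    rw [vb (by linarith), W, ← ENNReal.ofReal_mul (by positivity)]
    exact ENNReal.ofReal_le_ofReal h2
  calc v * ENNReal.ofReal (1 / 2) ≤ v * (W n t * volume (ball (0 : Fin n → ℝ) (t + -L))) := by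
        gcongr
    _ = W n t * (v * volume (ball (0 : Fin n → ℝ) (t + -L))) := by ring
    _ ≤ W n t * (volume (ball (0 : Fin n → ℝ) L) * volume (S ∩ ball 0 t)) :=
        mul_le_mul_right (dens hS h t) _
    _ = _ := by ring

lemma null {N : Set (Fin n → ℝ)} (hN : MeasurableSet N) (x1 : Fin n → ℝ)
    (h : ∀ x, volume {s : ℝ | x1 + s • x ∈ N} = 0) : volume N = 0 := by
  have hm : Measurable (N.indicator (1 : (Fin n → ℝ) → ℝ≥0∞)) := measurable_one.indicator hN
  have e1 : ∫⁻ x : Fin n → ℝ, ∫⁻ s : ℝ, N.indicator (1 : (Fin n → ℝ) → ℝ≥0∞) (x1 + s • x) = 0 := by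
    rw [← lintegral_zero (μ := (volume : Measure (Fin n → ℝ)))]
    refine lintegral_congr fun x => ?_
    have : MeasurableSet {s : ℝ | x1 + s • x ∈ N} := hN.preimage (by fun_prop)
    rw [← h x, ← lintegral_indicator_one this]
    rfl
  rw [lintegral_lintegral_swap (f := fun (x : Fin n → ℝ) (s : ℝ) =>
    N.indicator (1 : (Fin n → ℝ) → ℝ≥0∞) (x1 + s • x)) (hm.comp
      (f := fun p : (Fin n → ℝ) × ℝ => x1 + p.2 • p.1) (by fun_prop)).aemeasurable,
    lintegral_eq_zero_iff (Measurable.lintegral_prod_right' (f := fun p : ℝ × (Fin n → ℝ) =>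
      N.indicator (1 : (Fin n → ℝ) → ℝ≥0∞) (x1 + p.1 • p.2)) (hm.comp (by fun_prop)))] at e1
  obtain ⟨s, hs, hs0⟩ := (e1.and (compl_mem_ae_iff.2 (measure_singleton (0:ℝ)))).exists
  have hs0' : s ≠ 0 := hs0
  have e2 : ∫⁻ x : Fin n → ℝ, N.indicator (1 : (Fin n → ℝ) → ℝ≥0∞) (x1 + s • x) =
      volume ((s • ·) ⁻¹' ((x1 + ·) ⁻¹' N)) := by
    exact lintegral_indicator_one (hN.preimage (f := fun x => x1 + s • x) (by fun_prop))
  simp only [Pi.zero_apply] at hs
  rw [e2, Measure.addHaar_preimage_smul _ hs0', measure_preimage_add] at hs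
  refine (mul_eq_zero.1 hs).resolve_left ?_
  simp [hs0']

end Pool.Agent.H.MP_5c297c_an
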