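import Pool.Agent.H.MP_5c297c_an.A

set_option autoImplicit false
open Filter Topology Metric Set MeasureTheory Real
open scoped ENNReal

namespace Pool.Agent.H.MP_5c297c_an

variable {n : ℕ} {u : (Fin n → ℝ) → (Fin n → ℝ) → ℝ} {φ : (Fin n → ℝ) → ℝ} {M ρ : ℝ}
  {y e : Fin n → ℝ}

noncomputable def cc (u : (Fin n → ℝ) → (Fin n → ℝ) → ℝ) (M ρ : ℝ) (y e x : Fin n → ℝ) : ℝ≥0∞ :=
  ∫⁻ θ in Ioc 0 (2 * π), ENNReal.ofReal (M - u (x + (ρ * cos θ) • e) (y + (ρ * sin θ) • e))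

lemma Wt (t : ℝ) : W n t ≠ ⊤ := ENNReal.ofReal_ne_top

lemma nshift (θ : ℝ) : ‖(ρ * cos θ) • e‖ ≤ |ρ| * ‖e‖ := by
  rw [norm_smul, Real.norm_eq_abs, abs_mul]
  gcongr
  exact mul_le_of_le_one_right (abs_nonneg _) (abs_cos_le_one θ)

lemma swap (hu : Measurable fun p : (Fin n → ℝ) × (Fin n → ℝ) => u p.1 p.2) (t : ℝ) :
    ∫⁻ x in ball 0 t, cc u M ρ y e x = ∫⁻ θ in Ioc 0 (2 * π), ∫⁻ x in ball 0 t,
      ENNReal.ofReal (M - u (x + (ρ * cos θ) • e) (y + (ρ * sin θ) • e)) :=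
  lintegral_lintegral_swap (f := fun (x : Fin n → ℝ) (θ : ℝ) =>
    ENNReal.ofReal (M - u (x + (ρ * cos θ) • e) (y + (ρ * sin θ) • e)))
    (ENNReal.measurable_ofReal.comp (measurable_const.sub (hu.comp
      (f := fun p : (Fin n → ℝ) × ℝ => (p.1 + (ρ * cos p.2) • e, y + (ρ * sin p.2) • e))
      (by fun_prop)))).aemeasurable

lemma meas (hu : Measurable fun p : (Fin n → ℝ) × (Fin n → ℝ) => u p.1 p.2) (t s : ℝ) :
    Measurable fun θ : ℝ => W n t * ∫⁻ x in ball 0 s,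
      ENNReal.ofReal (M - u x (y + (ρ * sin θ) • e)) :=
  (Measurable.lintegral_prod_right' (f := fun p : ℝ × (Fin n → ℝ) =>
    ENNReal.ofReal (M - u p.2 (y + (ρ * sin p.1) • e)))
    (ENNReal.measurable_ofReal.comp (measurable_const.sub (hu.comp
      (f := fun p : ℝ × (Fin n → ℝ) => (p.2, y + (ρ * sin p.1) • e))
      (by fun_prop))))).const_mul _

lemma core_lo (hu : Measurable fun p : (Fin n → ℝ) × (Fin n → ℝ) => u p.1 p.2)
    (hJ : ∀ y, Tendsto (fun t : ℝ => ((2 * t) ^ n)⁻¹ * ∫ x in ball 0 t, u x y) atTop (𝓝 (φ y)))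
    (hφ : ∀ y, φ y ≠ 0) (hM : ∀ x θ, u x (y + (ρ * sin θ) • e) ≤ M)
    {S : Set (Fin n → ℝ)} (hS : MeasurableSet S) {γ d : ℝ≥0∞} (hγ : γ ≠ 0) (hd : d ≠ 0)
    (hD : ∀ᶠ t in atTop, d ≤ W n t * volume (S ∩ ball 0 t))
    (h : ∀ᵐ x, cc u M ρ y e x + γ * S.indicator 1 x ≤
      ENNReal.ofReal (2 * π) * ENNReal.ofReal (M - u x y))
    (hf : ∀ θ, φ (y + (ρ * sin θ) • e) = φ y) : False := by
  have hM0 : ∀ x, u x y ≤ M := fun x => by simpa using hM x 0
  set C := ENNReal.ofReal (2 * π) * ENNReal.ofReal (M - φ y) with hC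
  set g : ℝ → ℝ → ℝ≥0∞ := fun t θ => W n t * ∫⁻ x in ball 0 (t + -(|ρ| * ‖e‖)),
    ENNReal.ofReal (M - u x (y + (ρ * sin θ) • e)) with hg
  have F1 : C ≤ liminf (fun t => ∫⁻ θ in Ioc 0 (2 * π), g t θ) atTop := by
    refine le_trans (le_of_eq ?_) (lintegral_liminf_le (fun t => meas hu t _))
    have : ∀ θ, liminf (fun t => g t θ) atTop = ENNReal.ofReal (M - φ y) := fun θ => by
      rw [← hf θ]; exact (lim (hφ _) (hJ _) (fun x => hM x θ) _).liminf_eq
    simp only [this, setLIntegral_const, volume_Ioc, sub_zero, hC]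
    exact mul_comm _ _
  have T : Tendsto (fun t => ENNReal.ofReal (2 * π) * (W n t * ∫⁻ x in ball 0 (t + 0),
      ENNReal.ofReal (M - u x y))) atTop (𝓝 C) :=
    ENNReal.Tendsto.const_mul (lim (hφ _) (hJ _) hM0 0) (Or.inr ENNReal.ofReal_ne_top)
  have E : ∀ᶠ t in atTop, (∫⁻ θ in Ioc 0 (2 * π), g t θ) + γ * d ≤
      ENNReal.ofReal (2 * π) * (W n t * ∫⁻ x in ball 0 (t + 0), ENNReal.ofReal (M - u x y)) := by
    filter_upwards [hD] with t ht
    have a1 : ∫⁻ θ in Ioc 0 (2 * π), g t θ ≤ W n t * ∫⁻ x in ball 0 t, cc u M ρ y e x := by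
      rw [swap hu, ← lintegral_const_mul' _ _ (Wt t)]
      refine lintegral_mono fun θ => mul_le_mul_right ?_ _
      exact shift' (fun x => ENNReal.ofReal (M - u x (y + (ρ * sin θ) • e))) _
        (by linarith [nshift (ρ := ρ) (e := e) θ])
    have a2 : ∫⁻ x in ball 0 t, (cc u M ρ y e x + γ * S.indicator 1 x) ≤
        ∫⁻ x in ball 0 t, ENNReal.ofReal (2 * π) * ENNReal.ofReal (M - u x y) :=
      lintegral_mono_ae (ae_restrict_of_ae h)
    rw [lintegral_add_right _ ((measurable_one.indicator hS).const_mul _),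
      lintegral_const_mul _ (measurable_one.indicator hS), lintegral_indicator_one hS,
      Measure.restrict_apply hS, lintegral_const_mul' _ _ ENNReal.ofReal_ne_top] at a2
    calc _ ≤ W n t * (∫⁻ x in ball 0 t, cc u M ρ y e x) + γ * (W n t * volume (S ∩ ball 0 t)) := by
          gcongr
      _ = W n t * ((∫⁻ x in ball 0 t, cc u M ρ y e x) + γ * volume (S ∩ ball 0 t)) := by ring
      _ ≤ W n t * (ENNReal.ofReal (2 * π) * ∫⁻ x in ball 0 t, ENNReal.ofReal (M - u x y)) :=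
          mul_le_mul_right a2 _
      _ = _ := by rw [add_zero]; ring
  have Ct : C ≠ ⊤ := ENNReal.mul_ne_top ENNReal.ofReal_ne_top ENNReal.ofReal_ne_top
  have D1 : γ * d ≤ C := ge_of_tendsto T (E.mono fun t ht => le_add_self.trans ht)
  have D0 : γ * d ≠ 0 := mul_ne_zero hγ hd
  have Dt : γ * d ≠ ⊤ := ne_top_of_le_ne_top Ct D1
  have T2 := ENNReal.Tendsto.sub T (tendsto_const_nhds (x := γ * d)) (Or.inl Ct)
  have F2 := F1.trans ((liminf_le_liminf (E.mono fun t ht =>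
    ENNReal.le_sub_of_add_le_right Dt ht)).trans T2.liminf_eq.le)
  exact absurd F2 (not_le.2 (ENNReal.sub_lt_self Ct (fun h0 => D0 (le_zero_iff.1 (h0 ▸ D1))) D0))

lemma core_hi (hu : Measurable fun p : (Fin n → ℝ) × (Fin n → ℝ) => u p.1 p.2)
    (hJ : ∀ y, Tendsto (fun t : ℝ => ((2 * t) ^ n)⁻¹ * ∫ x in ball 0 t, u x y) atTop (𝓝 (φ y)))
    (hφ : ∀ y, φ y ≠ 0) (hM : ∀ x θ, u x (y + (ρ * sin θ) • e) ≤ M)
    (h : ∀ x, ENNReal.ofReal (2 * π) * ENNReal.ofReal (M - u x y) ≤ cc u M ρ y e x)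
    (hH : ∀ x θ, M - u x (y + (ρ * sin θ) • e) ≤ 3 * (M - u x y) + 2) :
    ENNReal.ofReal (2 * π) * ENNReal.ofReal (M - φ y) ≤
      ∫⁻ θ in Ioc 0 (2 * π), ENNReal.ofReal (M - φ (y + (ρ * sin θ) • e)) := by
  have hM0 : ∀ x, u x y ≤ M := fun x => by simpa using hM x 0
  set σ := |ρ| * ‖e‖
  have T : Tendsto (fun t => ENNReal.ofReal (2 * π) * (W n t * ∫⁻ x in ball 0 (t + 0),
      ENNReal.ofReal (M - u x y))) atTop (𝓝 _) :=
    ENNReal.Tendsto.const_mul (lim (hφ _) (hJ _) hM0 0) (Or.inr ENNReal.ofReal_ne_top)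
  have T3 := lim (v := fun x => 3 * u x y) (c := 3 * φ y) (M := 3 * M + 2)
    (mul_ne_zero three_ne_zero (hφ y)) (by
      refine ((hJ y).const_mul 3).congr fun t => ?_
      rw [integral_const_mul]; ring) (fun x => by linarith [hM0 x]) σ
  have T2 := tendsto_lintegral_filter_of_dominated_convergence (μ := volume.restrict (Ioc 0 (2 * π)))
    (l := atTop) (F := fun t θ => W n t * ∫⁻ x in ball 0 (t + σ),
      ENNReal.ofReal (M - u x (y + (ρ * sin θ) • e)))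
    (f := fun θ => ENNReal.ofReal (M - φ (y + (ρ * sin θ) • e)))
    (fun _ => ENNReal.ofReal (3 * M + 2 - 3 * φ y) + 1)
    (Eventually.of_forall fun t => meas hu t _) (by
      filter_upwards [T3.eventually (ge_mem_nhds (ENNReal.lt_add_right ENNReal.ofReal_ne_top
        one_ne_zero))] with t ht
      refine Eventually.of_forall fun θ => le_trans (mul_le_mul_right (lintegral_mono fun x =>
        ENNReal.ofReal_le_ofReal ?_) _) ht
      linarith [hH x θ]) (by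
      rw [setLIntegral_const, volume_Ioc]
      exact ENNReal.mul_ne_top (by simp) ENNReal.ofReal_ne_top)
    (Eventually.of_forall fun θ => lim (hφ _) (hJ _) (fun x => hM x θ) σ)
  refine le_of_tendsto_of_tendsto' T T2 fun t => ?_
  rw [lintegral_const_mul' _ _ (Wt t), mul_left_comm, add_zero,
    ← lintegral_const_mul' _ _ ENNReal.ofReal_ne_top]
  refine mul_le_mul_right ((lintegral_mono h).trans ?_) _
  rw [swap hu]
  refine lintegral_mono fun θ => ?_
  exact shift (fun x => ENNReal.ofReal (M - u x (y + (ρ * sin θ) • e))) _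
    (by linarith [nshift (ρ := ρ) (e := e) θ])

lemma circ {F : ℂ → ℂ} (hF : Differentiable ℂ F) (hM : ∀ θ, log ‖F (circleMap 0 ρ θ)‖ ≤ M) :
    ∫⁻ θ in Ioc 0 (2 * π), ENNReal.ofReal (M - log ‖F (circleMap 0 ρ θ)‖) =
      ENNReal.ofReal (2 * π) * ENNReal.ofReal (M - circleAverage (log ‖F ·‖) 0 ρ) := by
  have i1 : IntervalIntegrable (fun θ => log ‖F (circleMap 0 ρ θ)‖) volume 0 (2 * π) :=
    MeromorphicOn.circleIntegrable_log_norm (f := F) (c := 0) (R := ρ)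
      fun z _ => (hF.analyticAt z).meromorphicAt
  have i2 : IntervalIntegrable (fun θ => M - log ‖F (circleMap 0 ρ θ)‖) volume 0 (2 * π) :=
    intervalIntegrable_const.sub i1
  rw [← ofReal_integral_eq_lintegral_ofReal i2.1 (Eventually.of_forall fun θ => sub_nonneg.2 (hM θ)),
    ← intervalIntegral.integral_of_le two_pi_pos.le,
    intervalIntegral.integral_sub intervalIntegrable_const i1,
    ← ENNReal.ofReal_mul two_pi_pos.le, circleAverage_def]
  congr 1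
  simp only [intervalIntegral.integral_const, sub_zero, smul_eq_mul]
  field_simp

lemma subm {F : ℂ → ℂ} (hF : Differentiable ℂ F) (hρ : 0 < ρ) (h0 : F 0 ≠ 0) :
    log ‖F 0‖ ≤ circleAverage (log ‖F ·‖) 0 ρ := by
  have B : AnalyticOnNhd ℂ F (closedBall 0 |ρ|) := fun z _ => hF.analyticAt z
  rw [B.circleAverage_log_norm hρ.ne' h0, le_add_iff_nonneg_left]
  refine finsum_nonneg fun u => ?_
  by_cases c : u ∈ closedBall (0 : ℂ) |ρ|
  · refine mul_nonneg (mod_cast MeromorphicOn.AnalyticOnNhd.divisor_nonneg B u) ?_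
    rw [abs_of_pos hρ, mem_closedBall_zero_iff] at c
    rw [zero_sub, norm_neg]
    rcases (norm_nonneg u).eq_or_lt with h | h
    · simp [← h]
    · exact log_nonneg (by rw [← div_eq_mul_inv, one_le_div h]; exact c)
  simp [Function.locallyFinsuppWithin.apply_eq_zero_of_notMem _ c]

lemma harn {F : ℂ → ℂ} (hF : Differentiable ℂ F) (hρ : 0 < ρ)
    (h0 : ∀ z ∈ ball (0:ℂ) (2 * ρ), F z ≠ 0 ∧ log ‖F z‖ ≤ M) {z : ℂ} (hz : ‖z‖ ≤ ρ) :
    M - log ‖F z‖ ≤ 3 * (M - log ‖F 0‖) + 2 := by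
  obtain ⟨G, G1, G2⟩ := InnerProductSpace.HarmonicOnNhd.exists_analyticOnNhd_ball_re_eq
    (f := fun z => log ‖F z‖) (z := 0) (R := 2 * ρ)
    (fun w hw => (hF.analyticAt w).harmonicAt_log_norm (h0 w hw).1)
  have b0 : (0:ℂ) ∈ ball (0:ℂ) (2 * ρ) := mem_ball_self (by linarith)
  have bz : z ∈ ball (0:ℂ) (2 * ρ) := mem_ball_zero_iff.2 (by linarith)
  have e0 : (G 0).re = log ‖F 0‖ := G2 b0
  have ez : (G z).re = log ‖F z‖ := G2 bz
  have p : 0 < M - log ‖F 0‖ + 1 := by linarith [(h0 0 b0).2]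
  have := Complex.borelCaratheodory_zero (f := fun w => G w - G 0) (M := M - log ‖F 0‖ + 1)
    (R := 2 * ρ) (z := z) p (G1.differentiableOn.sub_const _) (fun w hw => by
      have : (G w).re = log ‖F w‖ := G2 hw
      simp only [mem_ofPred_eq, Complex.sub_re]
      linarith [(h0 w hw).2]) (by linarith) bz (sub_self _)
  have h2 : 2 * (M - log ‖F 0‖ + 1) * ‖z‖ / (2 * ρ - ‖z‖) ≤ 2 * (M - log ‖F 0‖ + 1) := by
    rw [div_le_iff₀ (by linarith)]
    gcongr
    linarith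
  have h3 := (neg_le_abs _).trans (Complex.abs_re_le_norm (G z - G 0))
  rw [Complex.sub_re, e0, ez] at h3
  linarith

end Pool.Agent.H.MP_5c297c_an
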