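import Pool.Agent.H.MP_5c297c_an.B

set_option autoImplicit false
open Filter Topology Metric Set MeasureTheory Real
open scoped ENNReal

namespace Pool.Agent.H.MP_5c297c_an

variable {n : ℕ} {f : (Fin n → ℂ) → ℂ} {φ : (Fin n → ℝ) → ℝ}

noncomputable def pt (x y : Fin n → ℝ) : Fin n → ℂ := fun j => (x j : ℂ) + (y j : ℂ) * Complex.I

noncomputable def cx (e : Fin n → ℝ) : Fin n → ℂ := fun j => (e j : ℂ)

lemma line (x y e : Fin n → ℝ) (ζ : ℂ) :
    pt x y + ζ • cx e = pt (x + ζ.re • e) (y + ζ.im • e) := by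
  ext j
  apply Complex.ext <;> simp [pt, cx]

lemma cpt : Continuous fun p : (Fin n → ℝ) × (Fin n → ℝ) => pt p.1 p.2 := by
  unfold pt; fun_prop

structure Hyp (f : (Fin n → ℂ) → ℂ) (φ : (Fin n → ℝ) → ℝ) : Prop where
  df : Differentiable ℂ f
  ap : ∀ ε > 0, ∀ R : ℝ, ∃ l > 0, ∀ a : Fin n → ℝ, ∃ h ∈ ball a l, ∀ x y, ‖y‖ ≤ R →
    ‖f (pt (x + h) y) - f (pt x y)‖ ≤ ε
  je : ∀ y, Tendsto (fun t : ℝ => ((2 * t) ^ n)⁻¹ * ∫ x in ball 0 t, log ‖f (pt x y)‖) atTop
    (𝓝 (φ y))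
  ne : ∀ y, φ y ≠ 0

lemma Hyp.meas (H : Hyp f φ) :
    Measurable fun p : (Fin n → ℝ) × (Fin n → ℝ) => log ‖f (pt p.1 p.2)‖ :=
  (H.df.continuous.comp cpt).norm.measurable.log

lemma Hyp.ex (H : Hyp f φ) (y : Fin n → ℝ) : ∃ x, f (pt x y) ≠ 0 := by
  by_contra! h
  refine H.ne y (tendsto_nhds_unique (H.je y) ?_)
  simp [h]

lemma Hyp.dl (H : Hyp f φ) (z w : Fin n → ℂ) : Differentiable ℂ fun ζ : ℂ => f (z + ζ • w) :=
  H.df.comp (by fun_prop)

lemma Hyp.bdd (H : Hyp f φ) (R : ℝ) : ∃ M, ∀ x y, ‖y‖ ≤ R → log ‖f (pt x y)‖ ≤ M := by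
  obtain ⟨l, _, h⟩ := H.ap 1 one_pos R
  obtain ⟨B, hB⟩ := ((isCompact_closedBall (0 : Fin n → ℝ) l).prod
    (isCompact_closedBall (0 : Fin n → ℝ) R)).exists_bound_of_continuousOn
    (H.df.continuous.comp cpt).continuousOn
  refine ⟨B + 1, fun x y hy => (log_le_self (norm_nonneg _)).trans ?_⟩
  obtain ⟨k, k1, k2⟩ := h x
  have a1 := k2 (x - k) y hy
  have a2 := hB (x - k, y) ⟨by
    rw [mem_closedBall_zero_iff, norm_sub_rev]; exact (mem_ball_iff_norm.1 k1).le,
    mem_closedBall_zero_iff.2 hy⟩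
  rw [sub_add_cancel] at a1
  simp only [Function.comp] at a2
  linarith [norm_sub_norm_le (f (pt x y)) (f (pt (x - k) y))]

lemma Hyp.ae (H : Hyp f φ) (y : Fin n → ℝ) : ∀ᵐ x, f (pt x y) ≠ 0 := by
  obtain ⟨x1, h1⟩ := H.ex y
  have c : Continuous fun x => f (pt x y) :=
    (H.df.continuous.comp cpt).comp (continuous_id.prodMk continuous_const)
  rw [ae_iff]
  simp only [ne_eq, not_not]
  refine null (isClosed_eq c continuous_const).measurableSet x1 fun x => ?_
  have a1 : AnalyticOnNhd ℝ (fun s : ℝ => f (pt x1 y + (s : ℂ) • cx x)) univ := fun s _ =>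
    (((H.dl (pt x1 y) (cx x)).analyticAt s).restrictScalars (𝕜 := ℝ)).fun_comp
      (Complex.ofRealCLM.analyticAt s)
  have a2 := ae_restrict_le_codiscreteWithin (μ := volume) MeasurableSet.univ
    (a1.preimage_zero_mem_codiscrete (x := 0) (by simpa using h1))
  rw [Measure.restrict_univ, mem_ae_iff] at a2
  rw [← a2]
  congr 1
  ext s
  simp only [line, mem_ofPred_eq, mem_compl_iff, mem_preimage, mem_singleton_iff, not_not,
    Complex.ofReal_re, Complex.ofReal_im, zero_smul, add_zero]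

lemma ccf (f : (Fin n → ℂ) → ℂ) (M ρ : ℝ) (y e x : Fin n → ℝ) :
    cc (fun x y => log ‖f (pt x y)‖) M ρ y e x = ∫⁻ θ in Ioc 0 (2 * π),
      ENNReal.ofReal (M - log ‖f (pt x y + circleMap 0 ρ θ • cx e)‖) := by
  simp only [cc, line, circleMap_zero_re, circleMap_zero_im]

lemma nb (y e : Fin n → ℝ) {s r : ℝ} (h : |s| ≤ r) : ‖y + s • e‖ ≤ ‖y‖ + r * ‖e‖ := by
  refine (norm_add_le _ _).trans ?_
  rw [norm_smul, Real.norm_eq_abs]
  gcongr

lemma as {ρ : ℝ} (h : 0 < ρ) (θ : ℝ) : |ρ * sin θ| ≤ ρ := by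
  rw [abs_mul, abs_of_pos h]
  exact mul_le_of_le_one_right h.le (abs_sin_le_one θ)

theorem Hyp.flat (H : Hyp f φ) {x0 y e : Fin n → ℝ} {r : ℝ} (hr : 0 < r)
    (hφ : ∀ s, |s| ≤ r → φ (y + s • e) = φ y) (h0 : f (pt x0 y) = 0) (ζ : ℂ) :
    f (pt x0 y + ζ • cx e) = 0 := by
  by_contra hζ
  have an : AnalyticOnNhd ℂ (fun ζ : ℂ => f (pt x0 y + ζ • cx e)) univ := fun z _ =>
    (H.dl _ _).analyticAt z
  have ev := (an 0 trivial).eventually_eq_zero_or_eventually_ne_zero.resolve_left fun h =>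
    hζ (an.eqOn_zero_of_preconnected_of_eventuallyEq_zero isPreconnected_univ trivial h trivial)
  obtain ⟨r1, hr1, h1⟩ := Metric.eventually_nhds_iff.1 (eventually_nhdsWithin_iff.1 ev)
  set ρ := min r (r1 / 2) with hρ
  have ρ0 : 0 < ρ := lt_min hr (by linarith)
  obtain ⟨w, hw, hm⟩ := (isCompact_sphere (0:ℂ) ρ).exists_isMinOn
    (NormedSpace.sphere_nonempty.2 ρ0.le) (H.dl (pt x0 y) (cx e)).continuous.norm.continuousOn
  set m := ‖f (pt x0 y + w • cx e)‖ with hmd
  have hw' : ‖w‖ = ρ := by simpa using hw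
  have m0 : 0 < m := norm_pos_iff.2 (h1 (by
    rw [dist_zero_right, hw']; linarith [min_le_right r (r1 / 2)]) (by
    intro h; rw [mem_singleton_iff.1 h, norm_zero] at hw'; linarith))
  obtain ⟨δ, hδ, h2⟩ := Metric.eventually_nhds_iff.1
    ((isCompact_closedBall (0:ℂ) ρ).eventually_forall_of_forall_eventually (x₀ := x0)
    (P := fun x ζ => ‖f (pt x y + ζ • cx e) - f (pt x0 y + ζ • cx e)‖ < m / 8) fun ζ _ => by
      have c1 : Continuous fun p : (Fin n → ℝ) × ℂ => f (pt p.1 y + p.2 • cx e) :=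
        H.df.continuous.comp ((cpt.comp (continuous_fst.prodMk continuous_const)).add (by fun_prop))
      exact ContinuousAt.eventually_lt (c1.sub (c1.comp
        (continuous_const.prodMk continuous_snd))).norm.continuousAt continuousAt_const
        (by simpa using m0))
  obtain ⟨M, hM⟩ := H.bdd (‖y‖ + ρ * ‖e‖)
  obtain ⟨l, l0, hl⟩ := H.ap (m / 8) (by positivity) (‖y‖ + ρ * ‖e‖)
  set S := ⋃ h ∈ {h : Fin n → ℝ | ∀ x y', ‖y'‖ ≤ ‖y‖ + ρ * ‖e‖ →
    ‖f (pt (x + h) y') - f (pt x y')‖ ≤ m / 8}, ball (x0 + h) δ with hS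
  have So : MeasurableSet S := (isOpen_biUnion fun _ _ => isOpen_ball).measurableSet
  obtain ⟨d, d0, hd⟩ := dens' So (L := l + δ) (v := ENNReal.ofReal ((2 * δ) ^ n)) (by linarith)
    (by simp; positivity) fun a => by
      obtain ⟨h, k1, k2⟩ := hl (a - x0)
      rw [← vb hδ (x0 + h)]
      refine measure_mono fun x hx => ⟨mem_biUnion (x := h) k2 hx, ?_⟩
      rw [mem_ball_iff_norm] at hx k1 ⊢
      have : x - a = (x - (x0 + h)) + (h - (a - x0)) := by abel
      rw [this]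
      linarith [norm_add_le (x - (x0 + h)) (h - (a - x0))]
  refine core_lo (u := fun x y => log ‖f (pt x y)‖) (M := M) (ρ := ρ) (y := y) (e := e) H.meas H.je
    H.ne (fun x θ => hM _ _ (nb y e (as ρ0 θ))) So
    (γ := ENNReal.ofReal (2 * π) * ENNReal.ofReal (log 3))
    (by simp [pi_pos, log_pos]) d0 hd ?_
    fun θ => hφ _ ((as ρ0 θ).trans (min_le_left _ _))
  filter_upwards [H.ae y] with x hx
  have bd : ∀ ζ : ℂ, ‖ζ‖ ≤ ρ → log ‖f (pt x y + ζ • cx e)‖ ≤ M := fun ζ hζ => by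
    rw [line]; exact hM _ _ (nb y e ((Complex.abs_im_le_norm ζ).trans hζ))
  have ci : CircleIntegrable (fun ζ => log ‖f (pt x y + ζ • cx e)‖) 0 ρ :=
    MeromorphicOn.circleIntegrable_log_norm fun z _ => ((H.dl _ _).analyticAt z).meromorphicAt
  rw [ccf, circ (F := fun ζ => f (pt x y + ζ • cx e)) (H.dl _ _)
    fun θ => bd _ (by simp [abs_of_pos ρ0])]
  by_cases hxS : x ∈ S
  · obtain ⟨h, k1, k2⟩ := mem_iUnion₂.1 hxS
    have cl : ∀ ζ : ℂ, ‖ζ‖ ≤ ρ →
        ‖f (pt x y + ζ • cx e) - f (pt x0 y + ζ • cx e)‖ ≤ m / 4 := fun ζ hζ => by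
      have a1 := h2 (y := x - h) (by
        rw [dist_eq_norm, sub_sub, add_comm h]; exact mem_ball_iff_norm.1 k2) ζ
        (mem_closedBall_zero_iff.2 hζ)
      have a2 := k1 (x - h + ζ.re • e) (y + ζ.im • e)
        (nb y e ((Complex.abs_im_le_norm ζ).trans hζ))
      rw [show x - h + ζ.re • e + h = x + ζ.re • e by abel, ← line, ← line] at a2
      linarith [norm_sub_le_norm_sub_add_norm_sub (f (pt x y + ζ • cx e))
        (f (pt (x - h) y + ζ • cx e)) (f (pt x0 y + ζ • cx e))]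
    have b1 : ‖f (pt x y)‖ ≤ m / 4 := by simpa [h0] using cl 0 (by simpa using ρ0.le)
    have b2 : log (3 * (m / 4)) ≤ circleAverage (fun ζ => log ‖f (pt x y + ζ • cx e)‖) 0 ρ := by
      rw [← circleAverage_const (log (3 * (m / 4))) 0 ρ]
      refine circleAverage_mono (circleIntegrable_const _ _ _) ci fun ζ hζ => ?_
      rw [abs_of_pos ρ0] at hζ
      refine log_le_log (by positivity) ?_
      have a1 : m ≤ ‖f (pt x0 y + ζ • cx e)‖ := hm hζ
      have a2 := cl ζ (by simpa using (mem_sphere_zero_iff_norm.1 hζ).le)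
      rw [norm_sub_rev] at a2
      linarith [norm_sub_norm_le (f (pt x0 y + ζ • cx e)) (f (pt x y + ζ • cx e))]
    have b3 : circleAverage (fun ζ => log ‖f (pt x y + ζ • cx e)‖) 0 ρ ≤ M :=
      circleAverage_mono_on_of_le_circle ci fun ζ hζ => bd ζ (by
        rw [abs_of_pos ρ0] at hζ; exact (mem_sphere_zero_iff_norm.1 hζ).le)
    have b4 := log_le_log (norm_pos_iff.2 hx) b1
    rw [log_mul three_ne_zero (by positivity)] at b2
    rw [indicator_of_mem hxS, Pi.one_apply, mul_one, ← mul_add,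
      ← ENNReal.ofReal_add (by linarith) (log_nonneg (by norm_num))]
    exact mul_le_mul_right (ENNReal.ofReal_le_ofReal (by linarith)) _
  · rw [indicator_of_notMem hxS, mul_zero, add_zero]
    have := subm (F := fun ζ => f (pt x y + ζ • cx e)) (H.dl _ _) ρ0 (by simpa using hx)
    simp only [zero_smul, add_zero] at this
    exact mul_le_mul_right (ENNReal.ofReal_le_ofReal (by linarith)) _

theorem Hyp.zf (H : Hyp f φ) {y e : Fin n → ℝ}
    (h0 : ∀ x (s : ℝ), |s| ≤ 2 → f (pt x (y + s • e)) ≠ 0)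
    (hφ : ∀ s, |s| ≤ 2 → φ (y + s • e) = (3 + s) ^ 2 + 1) : False := by
  obtain ⟨M, hM⟩ := H.bdd (‖y‖ + 2 * ‖e‖)
  have as2 : ∀ θ, |1 * sin θ| ≤ 2 := fun θ => (as one_pos θ).trans one_le_two
  have bd : ∀ x (ζ : ℂ), ‖ζ‖ ≤ 2 → f (pt x y + ζ • cx e) ≠ 0 ∧
      log ‖f (pt x y + ζ • cx e)‖ ≤ M := fun x ζ hζ => by
    rw [line]
    exact ⟨h0 _ _ ((Complex.abs_im_le_norm ζ).trans hζ),
      hM _ _ (nb y e ((Complex.abs_im_le_norm ζ).trans hζ))⟩
  have key := core_hi (u := fun x y => log ‖f (pt x y)‖) (M := M) (ρ := 1) (y := y) (e := e)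
    H.meas H.je H.ne (fun x θ => hM _ _ (nb y e (as2 θ))) (fun x => by
      rw [ccf, circ (F := fun ζ => f (pt x y + ζ • cx e)) (H.dl _ _)
        fun θ => (bd x _ (by simp)).2,
        AnalyticOnNhd.circleAverage_log_norm_of_ne_zero (fun z _ => (H.dl _ _).analyticAt z)
          fun z hz => (bd x z (by
            rw [abs_one, mem_closedBall_zero_iff] at hz; linarith)).1]
      simp) (fun x θ => by
      have := harn (F := fun ζ => f (pt x y + ζ • cx e)) (M := M) (H.dl _ _) one_pos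
        (fun z hz => bd x z (by rw [mem_ball_zero_iff] at hz; linarith))
        (z := ((1 * sin θ : ℝ) : ℂ) * Complex.I) (by
          rw [norm_mul, Complex.norm_I, mul_one, Complex.norm_real]; exact as one_pos θ)
      rw [line] at this
      simpa only [Complex.mul_re, Complex.mul_im, Complex.ofReal_re, Complex.ofReal_im,
        Complex.I_re, Complex.I_im, mul_zero, mul_one, sub_zero, zero_smul, add_zero, zero_add]
        using this)
  have nn : ∀ s, |s| ≤ 2 → 0 ≤ M - ((3 + s) ^ 2 + 1) := fun s hs =>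
    hφ s hs ▸ le_M (H.ne _) (H.je _) fun x => hM _ _ (nb y e hs)
  have p0 : φ y = 10 := by simpa [show (3:ℝ) ^ 2 + 1 = 10 by norm_num] using hφ 0 (by simp)
  simp only [hφ _ (as2 _), p0] at key
  have i2 : IntervalIntegrable (fun θ => M - ((3 + 1 * sin θ) ^ 2 + 1)) volume 0 (2 * π) :=
    Continuous.intervalIntegrable (by fun_prop) _ _
  rw [← ofReal_integral_eq_lintegral_ofReal i2.1 (Eventually.of_forall fun θ => nn _ (as2 θ)),
    ← intervalIntegral.integral_of_le two_pi_pos.le, ← ENNReal.ofReal_mul two_pi_pos.le,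
    ENNReal.ofReal_le_ofReal_iff (intervalIntegral.integral_nonneg two_pi_pos.le
      fun θ _ => nn _ (as2 θ))] at key
  have e1 : (fun θ => M - ((3 + 1 * sin θ) ^ 2 + 1)) =
      fun θ => (M - 10) - 6 * sin θ - sin θ ^ 2 := by ext θ; ring
  rw [e1, intervalIntegral.integral_sub (Continuous.intervalIntegrable (by fun_prop) _ _)
    (Continuous.intervalIntegrable (by fun_prop) _ _),
    intervalIntegral.integral_sub (Continuous.intervalIntegrable (by fun_prop) _ _)
    (Continuous.intervalIntegrable (by fun_prop) _ _), intervalIntegral.integral_const_mul,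
    integral_sin, integral_sin_sq] at key
  simp at key
  linarith [pi_pos]

lemma loc {i j : Fin n} {y a : Fin n → ℝ} (h : |y i| < |y j|) (ha : a j = 0) :
    ∃ r > 0, ∀ s : ℝ, |s| ≤ r →
      max ((y + s • a) i ^ 2) ((y + s • a) j ^ 2) = max (y i ^ 2) (y j ^ 2) := by
  refine ⟨(|y j| - |y i|) / (|a i| + 1), div_pos (by linarith) (by positivity), fun s hs => ?_⟩
  rw [le_div_iff₀ (by positivity)] at hs
  simp only [Pi.add_apply, Pi.smul_apply, smul_eq_mul, ha, mul_zero, add_zero]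
  rw [max_eq_right (sq_le_sq.2 h.le), max_eq_right (sq_le_sq.2 ?_)]
  refine (abs_add_le _ _).trans ?_
  rw [abs_mul]
  nlinarith [abs_nonneg s]

theorem main {i j : Fin n} (hij : i ≠ j) (H : Hyp f fun y => max (y i ^ 2) (y j ^ 2) + 1) :
    False := by
  refine H.zf (y := Pi.single i 3) (e := Pi.single i 1) (fun x s hs => ?_) fun s hs => ?_
  swap
  · simp [hij.symm, sq_nonneg]
  set y : Fin n → ℝ := Pi.single i 3 + s • Pi.single i 1 with hy
  have hlt : |y j| < |y i| := by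
    simp only [hy, Pi.add_apply, Pi.smul_apply, Pi.single_eq_same, Pi.single_eq_of_ne hij.symm,
      smul_eq_mul, mul_zero, add_zero, abs_zero, mul_one, abs_pos]
    linarith [neg_abs_le s]
  clear_value y
  intro h0
  obtain ⟨r, r0, hr⟩ := loc (a := Pi.single j 1) hlt (Pi.single_eq_of_ne hij _)
  have s1 := H.flat r0 (e := Pi.single j 1) (fun s hs => by
    rw [max_comm, hr s hs, max_comm]) h0
  obtain ⟨x', hx'⟩ := H.ex 0
  set a := Function.update (x' - x) j 0
  set b := Function.update (0 - y) j 0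
  have s2 : ∀ ζ : ℂ, |y i| + |y j| < ζ.im →
      f (pt (x + a) (y + b) + ζ • cx (Pi.single j 1)) = 0 := fun ζ hζ => by
    have c0 := s1 ζ
    rw [line] at c0
    have lt : |(y + ζ.im • (Pi.single j 1 : Fin n → ℝ)) i| <
        |(y + ζ.im • (Pi.single j 1 : Fin n → ℝ)) j| := by
      simp only [Pi.add_apply, Pi.smul_apply, Pi.single_eq_same, Pi.single_eq_of_ne hij,
        smul_eq_mul, mul_zero, add_zero, mul_one]
      exact lt_of_lt_of_le (by linarith [neg_abs_le (y j)]) (le_abs_self _)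
    obtain ⟨r1, r10, h1⟩ := loc (a := a) lt (Function.update_self ..)
    obtain ⟨r2, r20, h2⟩ := loc (a := b) lt (Function.update_self ..)
    have c1 := H.flat r10 (fun s hs => by rw [h1 s hs]) c0 1
    rw [line] at c1
    simp only [Complex.one_re, Complex.one_im, one_smul, zero_smul, add_zero] at c1
    have c2 := H.flat r20 (fun s hs => by rw [h2 s hs]) c1 Complex.I
    rw [line] at c2
    simp only [Complex.I_re, Complex.I_im, one_smul, zero_smul, add_zero] at c2
    rw [line, add_right_comm x, add_right_comm y]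
    exact c2
  have an : AnalyticOnNhd ℂ (fun ζ : ℂ => f (pt (x + a) (y + b) + ζ • cx (Pi.single j 1))) univ :=
    fun z _ => (H.dl _ _).analyticAt z
  have s3 := an.eqOn_zero_of_preconnected_of_eventuallyEq_zero isPreconnected_univ
    (z₀ := ((|y i| + |y j| + 1 : ℝ) : ℂ) * Complex.I) trivial (by
      filter_upwards [(isOpen_lt continuous_const Complex.continuous_im).mem_nhds
        (show |y i| + |y j| < (((|y i| + |y j| + 1 : ℝ) : ℂ) * Complex.I).im by simp)] with ζ hζ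
      exact s2 ζ hζ) (mem_univ ⟨x' j - x j, -y j⟩)
  apply hx'
  simp only [line, Pi.zero_apply] at s3
  rw [← s3]
  congr 2 <;> ext k <;> by_cases hk : k = j <;> simp [a, b, hk]

end Pool.Agent.H.MP_5c297c_an
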